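import Pool.Agent.TH931.LP.Stm

/-!
# Radial integration for homogeneous functions (helper244, job 2401 for helper931)
-/

set_option autoImplicit false

open MeasureTheory Set
open scoped ENNReal

noncomputable section

namespace Pool.Agent.TH244.LP931

open Pool.Agent.TH931.LP

variable {n : ℕ}

/-- scaling of the Lebesgue integral -/
theorem lint_smul (R : ℝ) (hR : 0 < R) (g : (Fin n → ℝ) → ℝ≥0∞) (hg : Measurable g) :
    ∫⁻ y, g y = ENNReal.ofReal (R ^ n) * ∫⁻ y, g (R • y) := by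
  have h1 : ∫⁻ y, g (R • y) = ENNReal.ofReal ((R ^ n)⁻¹) * ∫⁻ y, g y := by
    have h2 := Measure.map_addHaar_smul (volume : Measure (Fin n → ℝ)) hR.ne'
    have h3 : ∫⁻ y, g (R • y) = ∫⁻ y, g y ∂(Measure.map (R • ·) (volume : Measure (Fin n → ℝ))) := by
      rw [lintegral_map hg (measurable_const_smul R)]
    rw [h3, h2, lintegral_smul_measure]
    simp only [Module.finrank_fintype_fun_eq_card, Fintype.card_fin, smul_eq_mul]
    congr 2
    rw [abs_of_pos (by positivity)]
  rw [h1, ← mul_assoc, ← ENNReal.ofReal_mul (by positivity), mul_inv_cancel₀ (by positivity),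
    ENNReal.ofReal_one, one_mul]

/-- the mass of `{h ≤ R}` -/
theorem mass_le (h : (Fin n → ℝ) → ℝ) (hm : Measurable h)
    (hs : ∀ t : ℝ, 0 < t → ∀ y, h (t • y) = t * h y)
    (f : (Fin n → ℝ) → ℝ≥0∞) (fm : Measurable f) (fs : ∀ t : ℝ, 0 < t → ∀ y, f (t • y) = f y)
    (R : ℝ) (hR : 0 < R) :
    ∫⁻ y in {y | h y ≤ R}, f y = ENNReal.ofReal (R ^ n) * ∫⁻ y in {y | h y ≤ 1}, f y := by
  have hset : ∀ s : ℝ, MeasurableSet {y | h y ≤ s} := fun s => measurableSet_le hm measurable_const
  rw [← lintegral_indicator (hset R), ← lintegral_indicator (hset 1),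
    lint_smul R hR _ (fm.indicator (hset R))]
  congr 1
  refine lintegral_congr fun y => ?_
  simp only [indicator, mem_ofPred_eq, hs R hR, fs R hR]
  congr 1
  rw [eq_iff_iff]
  constructor
  · intro h1
    nlinarith
  · intro h1
    nlinarith

theorem int_pow (hn : 0 < n) (R : ℝ) (hR : 0 ≤ R) :
    ∫⁻ r in Ioc (0 : ℝ) R, ENNReal.ofReal (n * r ^ (n - 1)) = ENNReal.ofReal (R ^ n) := by
  rw [← ofReal_integral_eq_lintegral_ofReal]
  · congr 1
    rw [← intervalIntegral.integral_of_le hR, intervalIntegral.integral_const_mul, integral_pow]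
    have : ((n - 1 : ℕ) : ℝ) + 1 = n := by
      have : n - 1 + 1 = n := Nat.sub_add_cancel hn
      exact_mod_cast this
    have h2 : n - 1 + 1 = n := Nat.sub_add_cancel hn
    rw [this, h2, zero_pow hn.ne']
    have h3 : (n : ℝ) ≠ 0 := by exact_mod_cast hn.ne'
    field_simp
    ring
  · have : Continuous fun r : ℝ => (n : ℝ) * r ^ (n - 1) := by fun_prop
    exact (this.integrableOn_Icc).mono_set Ioc_subset_Icc_self
  · refine (ae_restrict_iff' measurableSet_Ioc).2 (Filter.Eventually.of_forall fun r hr => ?_)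
    have := hr.1.le
    positivity

/-- the statement for functions with finite mass -/
theorem rad_fin (hn : 0 < n) (h : (Fin n → ℝ) → ℝ) (hm : Measurable h)
    (h0 : ∀ y, 0 ≤ h y) (hs : ∀ t : ℝ, 0 < t → ∀ y, h (t • y) = t * h y)
    (f : (Fin n → ℝ) → ℝ≥0∞) (fm : Measurable f) (fs : ∀ t : ℝ, 0 < t → ∀ y, f (t • y) = f y)
    (hfin : ∫⁻ y in {y | h y ≤ 1}, f y ≠ ∞)
    (Φ : ℝ → ℝ≥0∞) (Φm : Measurable Φ) :
    ∫⁻ y, Φ (h y) * f y =
      (∫⁻ r in Ioi (0 : ℝ), ENNReal.ofReal (n * r ^ (n - 1)) * Φ r) *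
        ∫⁻ y in {y | h y ≤ 1}, f y := by
  set c := ∫⁻ y in {y | h y ≤ 1}, f y with hc
  have hset : ∀ s : ℝ, MeasurableSet {y | h y ≤ s} := fun s => measurableSet_le hm measurable_const
  set ν : Measure ℝ := Measure.map h ((volume : Measure (Fin n → ℝ)).withDensity f) with hν
  set μ : Measure ℝ := c • ((volume : Measure ℝ).restrict (Ioi 0)).withDensity
    (fun r => ENNReal.ofReal (n * r ^ (n - 1))) with hμ
  have pm : Measurable fun r : ℝ => ENNReal.ofReal ((n : ℝ) * r ^ (n - 1)) := by fun_prop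
  -- the masses of the half lines
  have a1 : ∀ R : ℝ, 0 < R → ν (Iic R) = ENNReal.ofReal (R ^ n) * c := by
    intro R hR
    rw [hν, Measure.map_apply hm measurableSet_Iic, withDensity_apply _ (hm measurableSet_Iic)]
    exact mass_le h hm hs f fm fs R hR
  have a2 : ν (Iic 0) = 0 := by
    have h1 : ∀ k : ℕ, ν (Iic 0) ≤ ENNReal.ofReal (1 / ((k : ℝ) + 1)) * c := by
      intro k
      have hk : (0 : ℝ) < 1 / ((k : ℝ) + 1) := by positivity
      have hk1 : (1 : ℝ) / ((k : ℝ) + 1) ≤ 1 := by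
        rw [div_le_one (by positivity)]
        have : (0 : ℝ) ≤ k := by positivity
        linarith
      calc ν (Iic 0) ≤ ν (Iic (1 / ((k : ℝ) + 1))) := measure_mono (Iic_subset_Iic.2 hk.le)
        _ = ENNReal.ofReal ((1 / ((k : ℝ) + 1)) ^ n) * c := a1 _ hk
        _ ≤ ENNReal.ofReal (1 / ((k : ℝ) + 1)) * c := by
          gcongr
          exact pow_le_of_le_one hk.le hk1 hn.ne'
    have h2 : Filter.Tendsto (fun k : ℕ => ENNReal.ofReal (1 / ((k : ℝ) + 1)) * c) Filter.atTop
        (nhds 0) := by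
      have h3 : Filter.Tendsto (fun k : ℕ => ENNReal.ofReal (1 / ((k : ℝ) + 1))) Filter.atTop
          (nhds (ENNReal.ofReal 0)) :=
        (ENNReal.continuous_ofReal.tendsto 0).comp tendsto_one_div_add_atTop_nhds_zero_nat
      rw [ENNReal.ofReal_zero] at h3
      have h4 := ENNReal.Tendsto.mul_const (b := c) h3 (Or.inr hfin)
      rwa [zero_mul] at h4
    exact le_antisymm (ge_of_tendsto' h2 h1) bot_le
  have b1 : ∀ R : ℝ, 0 < R → μ (Iic R) = ENNReal.ofReal (R ^ n) * c := by
    intro R hR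
    rw [hμ, Measure.smul_apply, withDensity_apply _ measurableSet_Iic,
      Measure.restrict_restrict measurableSet_Iic]
    have : Iic R ∩ Ioi (0 : ℝ) = Ioc 0 R := by
      ext x
      simp [and_comm]
    rw [this, int_pow hn R hR.le, smul_eq_mul, mul_comm]
  have b2 : μ (Iic 0) = 0 := by
    rw [hμ, Measure.smul_apply, withDensity_apply _ measurableSet_Iic,
      Measure.restrict_restrict measurableSet_Iic]
    have : Iic (0 : ℝ) ∩ Ioi (0 : ℝ) = ∅ := by
      ext x
      simp
    rw [this]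
    simp
  have e1 : ∀ R : ℝ, ν (Iic R) = μ (Iic R) := by
    intro R
    rcases lt_or_ge 0 R with hR | hR
    · rw [a1 R hR, b1 R hR]
    · rw [le_antisymm ((measure_mono (Iic_subset_Iic.2 hR)).trans a2.le) bot_le,
        le_antisymm ((measure_mono (Iic_subset_Iic.2 hR)).trans b2.le) bot_le]
  have fin1 : ∀ R : ℝ, ν (Iic R) ≠ ∞ := by
    intro R
    rcases lt_or_ge 0 R with hR | hR
    · rw [a1 R hR]
      exact ENNReal.mul_ne_top ENNReal.ofReal_ne_top hfin
    · exact (((measure_mono (Iic_subset_Iic.2 hR)).trans a2.le).trans_lt ENNReal.zero_lt_top).ne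
  have hνμ : ν = μ := by
    refine Measure.ext_of_Ioc' ν μ ?_ ?_
    · intro a b _
      exact ((measure_mono Ioc_subset_Iic_self).trans_lt (fin1 b).lt_top).ne
    · intro a b hab
      have hd : Ioc a b = Iic b \ Iic a := by
        ext x
        simp [and_comm]
      rw [hd, measure_sdiff (Iic_subset_Iic.2 hab.le) measurableSet_Iic.nullMeasurableSet (fin1 a),
        measure_sdiff (Iic_subset_Iic.2 hab.le) measurableSet_Iic.nullMeasurableSet
          (by rw [← e1]; exact fin1 a), e1, e1]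
  calc ∫⁻ y, Φ (h y) * f y = ∫⁻ y, Φ (h y) ∂((volume : Measure (Fin n → ℝ)).withDensity f) := by
        have h5 := lintegral_withDensity_eq_lintegral_mul (volume : Measure (Fin n → ℝ)) fm
          (Φm.comp hm)
        simp only [Function.comp_def] at h5
        rw [h5]
        refine lintegral_congr fun y => ?_
        simp [mul_comm]
    _ = ∫⁻ r, Φ r ∂ν := by rw [hν, lintegral_map Φm hm]
    _ = ∫⁻ r, Φ r ∂μ := by rw [hνμ]
    _ = _ := by
        rw [hμ, lintegral_smul_measure, lintegral_withDensity_eq_lintegral_mul _ pm Φm, smul_eq_mul,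
          mul_comm]
        rfl

theorem rad : S_rad := by
  intro n h hn hm h0 hs hv f fm fs Φ Φm
  -- truncations
  have tr : ∀ y, f y = ⨆ k : ℕ, min (f y) k := by
    intro y
    refine le_antisymm ?_ (iSup_le fun k => min_le_left _ _)
    rcases eq_or_ne (f y) ∞ with hy | hy
    · rw [hy]
      simp only [min_top_left]
      rw [ENNReal.iSup_natCast]
    · obtain ⟨k, hk⟩ := ENNReal.exists_nat_gt hy
      exact le_iSup_of_le k (by rw [min_eq_left hk.le])
  have mono : Monotone fun (k : ℕ) (y : Fin n → ℝ) => min (f y) (k : ℝ≥0∞) := by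
    intro k l hkl y
    exact min_le_min le_rfl (by exact_mod_cast hkl)
  have km : ∀ k : ℕ, Measurable fun y => min (f y) (k : ℝ≥0∞) := fun k => fm.min measurable_const
  have fin : ∀ k : ℕ, ∫⁻ y in {y | h y ≤ 1}, min (f y) (k : ℝ≥0∞) ≠ ∞ := by
    intro k
    refine ne_top_of_le_ne_top (ENNReal.mul_ne_top (ENNReal.natCast_ne_top k) hv)
      (?_ : _ ≤ (k : ℝ≥0∞) * volume {y | h y ≤ 1})
    calc ∫⁻ y in {y | h y ≤ 1}, min (f y) (k : ℝ≥0∞)
        ≤ ∫⁻ _ in {y | h y ≤ 1}, (k : ℝ≥0∞) := lintegral_mono fun y => min_le_right _ _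
      _ = _ := by rw [setLIntegral_const]
  have L : ∫⁻ y, Φ (h y) * f y = ⨆ k : ℕ, ∫⁻ y, Φ (h y) * min (f y) (k : ℝ≥0∞) := by
    rw [← lintegral_iSup]
    · refine lintegral_congr fun y => ?_
      rw [← ENNReal.mul_iSup, ← tr y]
    · intro k
      exact (Φm.comp hm).mul (km k)
    · intro k l hkl y
      exact mul_le_mul_right (mono hkl y) _
  have Rr : ∫⁻ y in {y | h y ≤ 1}, f y =
      ⨆ k : ℕ, ∫⁻ y in {y | h y ≤ 1}, min (f y) (k : ℝ≥0∞) := by
    rw [← lintegral_iSup km mono]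
    exact lintegral_congr fun y => tr y
  rw [L, Rr, ENNReal.mul_iSup]
  refine iSup_congr fun k => ?_
  exact rad_fin hn h hm h0 hs _ (km k) (fun t ht y => by rw [fs t ht y]) (fin k) Φ Φm

end Pool.Agent.TH244.LP931
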